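import Pool.Agent.MP_8be872_ag.H24.LocA

/-! Localization at an invariant function. -/

namespace Pool.Agent.MP_8be872_ag.H24

open H38 H56

section Abs

variable {V P₀ P₁ M₀ M₁ : Type} [Fintype V] [DecidableEq V] [CommRing P₀] [Algebra ℂ P₀]
  [CommRing P₁] [Algebra ℂ P₁] [AddCommGroup M₀] [Module ℂ M₀] [Module P₀ M₀]
  [IsScalarTower ℂ P₀ M₀] [AddCommGroup M₁] [Module ℂ M₁] [Module P₁ M₁] [IsScalarTower ℂ P₁ M₁]
  {R : V × V → Prop} [DecidablePred R] {x : V → G} {W₀ : G → Submodule ℂ M₀}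
  {W₁ : G → Submodule ℂ M₁}
  {ρ₀ : V × V → M₀ →ₗ[ℂ] M₀} {ρ₁ : V × V → M₁ →ₗ[ℂ] M₁} {i : P₀ →+* P₁} {e : M₀ →ₗ[ℂ] M₁}
  {f : P₀} {T : P₁} {φ : G} {g : V × V → P₀} {L : Submodule P₀ M₀ → Submodule P₁ M₁}

theorem acyc_self (Z : Submodule ℂ M₁) (γ : G) : Acyc R x W₁ ρ₁ Z Z γ :=
  fun _ _ h => Submodule.mem_sup_right h.1.1.1

theorem period (ce : CEStmt) (hR : IsRoots R) (D : Dat R x W₀ W₁ ρ₀ ρ₁ i e f T φ g L)
    {Z B : Submodule P₀ M₀} (hBZ : B ≤ Z) (hZ : IsSub R W₁ ρ₁ ((L Z).restrictScalars ℂ))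
    (hB : IsSub R W₁ ρ₁ ((L B).restrictScalars ℂ)) (hg : ∀ r, R r → ∀ m, g r • m ∈ B)
    (γ : G) (p : Bool) :
    Nonempty (Hu R x W₁ ρ₁ ((L Z).restrictScalars ℂ) ((L B).restrictScalars ℂ) γ p ≃ₗ[ℂ]
      Hu R x W₁ ρ₁ ((L Z).restrictScalars ℂ) ((L B).restrictScalars ℂ) (γ + φ) p) := by
  have hy : ∀ y : M₁, y = i f • T • y + -((i f * T - 1) • y) := fun y => by
    rw [sub_smul, one_smul, mul_smul]; abel
  refine (ce V R x hR M₁ W₁ ρ₁ D.rep1).2.2.2.2.2.2 M₁ W₁ ρ₁ D.rep1 _ _ _ _ (sm M₁ (i f)) φ hZ hB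
    (D.mono _ _ hBZ) hZ hB (D.mono _ _ hBZ) D.wf1 (fun r hr m _ => ?_) ?_ ?_ (fun y h => ?_)
    (fun y h => ?_) γ p
  · show i f • ρ₁ r m - ρ₁ r (i f • m) ∈ L B
    rw [D.actf1, sub_add_cancel_right]
    exact (L B).neg_mem (D.gmem (hg r hr) m)
  · rintro _ ⟨y, h, rfl⟩
    exact (L Z).smul_mem _ h
  · rintro _ ⟨y, h, rfl⟩
    exact (L B).smul_mem _ h
  · rw [hy y]
    exact Submodule.add_mem_sup ⟨T • y, (L Z).smul_mem _ h, rfl⟩ ((L B).neg_mem (D.memI B y))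
  · have h2 : i f • y ∈ L B := h.2
    rw [hy y, smul_comm]
    exact (L B).add_mem ((L B).smul_mem _ h2) ((L B).neg_mem (D.memI B y))

theorem main (ce : CEStmt) (hR : IsRoots R) (D : Dat R x W₀ W₁ ρ₀ ρ₁ i e f T φ g L)
    {Z B Kf : Submodule P₀ M₀} (hBZ : B ≤ Z) (hZ0 : IsSub R W₀ ρ₀ (Z.restrictScalars ℂ))
    (hK0 : IsSub R W₀ ρ₀ (Kf.restrictScalars ℂ))
    (hKf : IsSub R W₀ ρ₀ ((Kf ⊔ Ideal.span {f} • Z).restrictScalars ℂ))
    (hZ : IsSub R W₁ ρ₁ ((L Z).restrictScalars ℂ))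
    (hB : IsSub R W₁ ρ₁ ((L B).restrictScalars ℂ))
    (hK : ∀ z, z ∈ Kf ↔ z ∈ Z ∧ ∃ l : ℕ, f ^ l • z ∈ B) (γ : G)
    (hA : ∀ m : ℕ, Acyc R x W₀ ρ₀ (Z.restrictScalars ℂ)
      ((Kf ⊔ Ideal.span {f} • Z).restrictScalars ℂ) (γ + (m + 1) • φ)) (p : Bool) :
    Nonempty (Hu R x W₀ ρ₀ (Z.restrictScalars ℂ) (Kf.restrictScalars ℂ) γ p ≃ₗ[ℂ]
      Hu R x W₁ ρ₁ ((L Z).restrictScalars ℂ) ((L B).restrictScalars ℂ) γ p) := by
  obtain ⟨-, -, c3, c4, c5, -, c7⟩ := ce V R x hR M₁ W₁ ρ₁ D.rep1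
  have c3' := (ce V R x hR M₀ W₀ ρ₀ D.rep0).2.2.1
  obtain ⟨Y, hY⟩ : ∃ Y : ℕ → Submodule ℂ M₁, ∀ m,
    Y m = (Z.restrictScalars ℂ).map (psi e T m) ⊔ (L B).restrictScalars ℂ := ⟨_, fun _ => rfl⟩
  have sY : ∀ m, IsSub R W₁ ρ₁ (Y m) := fun m => hY m ▸ D.subY hZ0 hB m
  have bY : ∀ m, (L B).restrictScalars ℂ ≤ Y m := fun m => hY m ▸ le_sup_right
  have zY : ∀ m, (Z.restrictScalars ℂ).map (psi e T m) ≤ Y m := fun m => hY m ▸ le_sup_left
  have kB : ∀ m, ∀ k ∈ Kf, psi e T m k ∈ L B := fun m k hk =>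
    (L B).smul_mem _ ((D.frac2 B k).2 ((hK k).1 hk).2)
  have mY : Monotone Y := monotone_nat_of_le_succ fun m => by
    rw [hY m]
    refine sup_le ?_ (bY _)
    rintro _ ⟨z, hz, rfl⟩
    rw [eq_sub_of_add_eq (D.psi_succ m z).symm]
    exact (Y _).sub_mem (zY _ ⟨_, Z.smul_mem f hz, rfl⟩) (bY _ (D.memI B _))
  have hc : ∀ m r, R r → ∀ z ∈ Z.restrictScalars ℂ, ∀ N : Submodule ℂ M₁,
      psi e T m (ρ₀ r z) - ρ₁ r (psi e T m z) ∈ N := fun m r _ z _ N => by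
    rw [D.actpsi, sub_self]; exact N.zero_mem
  have step : ∀ m, Acyc R x W₁ ρ₁ (Y (m + 1)) (Y m) γ := fun m => by
    refine (c3 _ _ _).2 fun q => ?_
    have h := c7 M₀ W₀ ρ₀ D.rep0 (Y (m + 1)) (Y m) (Z.restrictScalars ℂ)
      ((Kf ⊔ Ideal.span {f} • Z).restrictScalars ℂ) (psi e T (m + 1)) (-((m + 1) • φ))
      (sY _) (sY _) (mY m.le_succ) hZ0 hKf ?_ (D.wpsi _) (fun r hr z hz => hc _ r hr z hz _)
      (zY _) ?_ ?_ ?_ (γ + (m + 1) • φ) q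
    · rw [add_neg_cancel_right] at h
      obtain ⟨h⟩ := h
      haveI := (c3' _ _ _).1 (hA m) q
      exact h.symm.toEquiv.subsingleton
    · intro y hy
      obtain ⟨k, hk, z, hz, rfl⟩ := mem_Kf.1 hy
      exact Z.add_mem ((hK k).1 hk).1 (Z.smul_mem _ hz)
    · rintro _ ⟨y, hy, rfl⟩
      obtain ⟨k, hk, z, hz, rfl⟩ := mem_Kf.1 hy
      rw [map_add, D.psi_succ]
      exact (Y m).add_mem (bY _ (kB _ k hk))
        ((Y m).add_mem (zY _ ⟨z, hz, rfl⟩) (bY _ (D.memI B _)))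
    · rw [hY (m + 1)]
      exact sup_le_sup_left (bY m) _
    · rintro z ⟨hz, h⟩
      have h : psi e T (m + 1) z ∈ Y m := h
      rw [hY m] at h
      obtain ⟨_, ⟨z', hz', rfl⟩, b, hb, h⟩ := Submodule.mem_sup.1 h
      refine mem_Kf.2 ⟨z - f • z', (hK _).2 ⟨Z.sub_mem hz (Z.smul_mem _ hz'),
        (D.frac2 B _).1 (D.cancel (m + 1) ?_)⟩, z', hz', (sub_add_cancel _ _).symm⟩
      rw [← psi_apply, map_sub, ← h, D.psi_succ, add_sub_add_left_eq_sub]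
      exact (L B).sub_mem hb (D.memI B _)
  have all : ∀ m, Acyc R x W₁ ρ₁ (Y m) (Y 0) γ := fun m => by
    induction m with
    | zero => exact acyc_self _ _
    | succ m ih =>
      refine (c3 _ _ _).2 fun q => ?_
      obtain ⟨h⟩ := (c4 _ _ _ (sY (m + 1)) (sY m) (sY 0) (mY m.zero_le) (mY m.le_succ) γ).1 ih q
      haveI := (c3 _ _ _).1 (step m) q
      exact h.toEquiv.subsingleton
  have hYZ : ∀ m, Y m ≤ (L Z).restrictScalars ℂ := fun m => by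
    rw [hY m]
    refine sup_le ?_ (D.mono _ _ hBZ)
    rintro _ ⟨z, hz, rfl⟩
    exact (L Z).smul_mem _ (D.emem hz)
  have hsup : ⨆ m, Y m = (L Z).restrictScalars ℂ := by
    refine le_antisymm (iSup_le hYZ) fun y hy => ?_
    obtain ⟨m, z, hz, y', rfl⟩ := D.nf hy
    exact Submodule.mem_iSup_of_mem m ((Y m).add_mem (zY _ ⟨z, hz, rfl⟩) (bY _ (D.memI B _)))
  have h5 := c5 Y (Y 0) mY γ all
  rw [hsup] at h5
  obtain ⟨h2⟩ := (c4 _ _ _ hZ (sY 0) hB (bY 0) (hYZ 0) γ).2 h5 p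
  have h1 := c7 M₀ W₀ ρ₀ D.rep0 (Y 0) ((L B).restrictScalars ℂ) (Z.restrictScalars ℂ)
    (Kf.restrictScalars ℂ) (psi e T 0) (-(0 • φ)) (sY _) hB (bY 0) hZ0 hK0
    (fun k hk => ((hK k).1 hk).1) (D.wpsi _) (fun r hr z hz => hc _ r hr z hz _) (zY _) ?_
    (hY 0).le ?_ γ p
  · rw [zero_smul, neg_zero, add_zero] at h1
    obtain ⟨h1⟩ := h1
    exact ⟨h1.trans h2⟩
  · rintro _ ⟨k, hk, rfl⟩
    exact kB _ k hk
  · exact fun z hz => (hK z).2 ⟨hz.1, (D.frac2 B z).1 (D.cancel 0 hz.2)⟩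

end Abs

theorem leib {V O P : Type} [Fintype O] [CommRing P] [Algebra ℂ P]
    (δ : V × V → Derivation ℂ P P) (κ : V × V → O → O → ℂ) (r : V × V) (a : P) (m : O → P) :
    freeAct δ κ r (a • m) = δ r a • m + a • freeAct δ κ r m := by
  funext o
  simp [freeAct, Finset.mul_sum, mul_add]
  ring

theorem wsm {O σ : Type} (w : σ → G) (c : O → G) {a : MvPolynomial σ ℂ} {φ γ : G}
    (ha : a ∈ MvPolynomial.weightedHomogeneousSubmodule ℂ w φ) {m : O → MvPolynomial σ ℂ}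
    (hm : m ∈ freeW c (MvPolynomial.weightedHomogeneousSubmodule ℂ w) γ) :
    a • m ∈ freeW c (MvPolynomial.weightedHomogeneousSubmodule ℂ w) (γ + φ) := by
  intro o _
  have := MvPolynomial.IsWeightedHomogeneous.mul ha (hm o trivial)
  rwa [show φ + (γ - c o) = γ + φ - c o by abel] at this

theorem loc : CEStmt → RepStmt → FracStmt → LocStmt := by
  intro ce rep frac A V W O _ _ _ _ _ _ _ _ R _ x t c κ φ f hR hf r0 r1 Z B hBZ hZ hB hg Kf hK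
  obtain ⟨-, -, h3, h4, -⟩ := rep A V W R x t
  obtain ⟨f1, f2⟩ := frac A V W O f
  have D : Dat R (fun a => x (.inl a)) (freeW c (polW0 x t)) (freeW c (polW1 x t φ))
      (freeAct act0 κ) (freeAct act κ) (emb (A := A) (V := V) (W := W)).toRingHom
      ((emb (A := A) (V := V) (W := W)).toLinearMap.compLeft O) f (MvPolynomial.X none) φ
      (fun r => act0 r f) (locSub f) :=
    { rep0 := r0
      rep1 := r1
      esmul := fun a z => by funext o; simp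
      eact := fun r z => by funext o; simp [freeAct, h3]
      actf0 := fun r z => leib _ _ _ _ _
      actf1 := fun r y => by
        rw [leib]; exact congrArg (fun a => a • y + _) (h3 r f)
      actT := fun r y => by
        rw [leib, act, MvPolynomial.mkDerivation_X, zero_smul, zero_add]
      wf0 := fun γ z hz => wsm _ c hf hz
      wf1 := fun γ z hz => wsm _ c ((h4 φ φ f).2 hf) hz
      wT := fun γ z hz => wsm _ c (MvPolynomial.isWeightedHomogeneous_X ℂ _ none) hz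
      we := fun γ z hz o _ => (h4 φ _ _).2 (hz o trivial)
      memI := fun Z y => Submodule.mem_sup_right
        (Submodule.smul_mem_smul (Ideal.subset_span rfl) trivial)
      mono := fun Z Z' h => sup_le_sup_right
        (Submodule.span_mono (by rintro y ⟨z, hz, e⟩; exact ⟨z, h hz, e⟩)) _
      frac1 := fun y => by
        obtain ⟨m, a, h⟩ := f1 y
        rw [Submodule.ideal_span_singleton_smul] at h
        obtain ⟨y', -, h⟩ := (Submodule.mem_smul_pointwise_iff_exists _ _ _).1 h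
        exact ⟨m, a, y', by rw [eq_add_of_sub_eq h.symm, add_comm]; rfl⟩
      frac2 := f2 }
  have k1 := D.subK hZ hB hg hK
  have k2 := D.subKf hZ k1 fun r hr m => (hK _).2 ⟨hBZ (hg r hr m), 0, by simpa using hg r hr m⟩
  have k3 := D.subL hZ fun r hr m => hBZ (hg r hr m)
  have k4 := D.subL hB hg
  exact ⟨k1, k2, k3, k4, period ce hR D hBZ k3 k4 hg, main ce hR D hBZ hZ k1 k2 k3 k4 hK⟩

end Pool.Agent.MP_8be872_ag.H24
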