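import Pool.Agent.MP_8be872_ag.H56.GSpec

/-! Localization at an invariant function, abstract form. -/

namespace Pool.Agent.MP_8be872_ag.H24

open H38 H56

section Hom

variable {M M' : Type} [AddCommGroup M] [Module ℂ M] [AddCommGroup M'] [Module ℂ M']
  {W : G → Submodule ℂ M} {W' : G → Submodule ℂ M'}

/-- Homogeneous subspaces. -/
abbrev Hg (W : G → Submodule ℂ M) (Z : Submodule ℂ M) : Prop := Z ≤ ⨆ γ, Z ⊓ W γ

theorem hg_map {Z' : Submodule ℂ M'} (h : Hg W' Z') (ψ : M' →ₗ[ℂ] M) (κ : G)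
    (hψ : ∀ γ, ∀ m ∈ W' γ, ψ m ∈ W (γ + κ)) : Hg W (Z'.map ψ) := by
  refine (Submodule.map_mono h).trans ?_
  rw [Submodule.map_iSup]
  refine iSup_le fun γ => le_iSup_of_le (γ + κ) ?_
  rintro _ ⟨m, hm, rfl⟩
  exact ⟨⟨m, hm.1, rfl⟩, hψ γ m hm.2⟩

theorem hg_sup {Z Y : Submodule ℂ M} (h1 : Hg W Z) (h2 : Hg W Y) : Hg W (Z ⊔ Y) :=
  sup_le (h1.trans (iSup_mono fun _ => inf_le_inf_right _ le_sup_left))
    (h2.trans (iSup_mono fun _ => inf_le_inf_right _ le_sup_right))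

theorem hg_of_forall {Z : Submodule ℂ M} (h : ∀ z ∈ Z, ∃ Y, Hg W Y ∧ Y ≤ Z ∧ z ∈ Y) :
    Hg W Z := by
  intro z hz
  obtain ⟨Y, h1, h2, h3⟩ := h z hz
  exact (iSup_mono fun _ => inf_le_inf_right _ h2 : (⨆ γ, Y ⊓ W γ) ≤ ⨆ γ, Z ⊓ W γ) (h1 h3)

theorem hg_top (h : ⨆ γ, W γ = ⊤) : Hg W ⊤ := by
  simp [Hg, h]

theorem exists_pr (top : ⨆ γ, W γ = ⊤) (ind : iSupIndep W) :
    ∃ pr : G → M →ₗ[ℂ] M, (∀ γ, ∀ m ∈ W γ, pr γ m = m) ∧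
      (∀ γ γ', γ' ≠ γ → ∀ m ∈ W γ', pr γ m = 0) ∧ (∀ γ m, pr γ m ∈ W γ) ∧
      ∀ m, ∃ s : Finset G, ∑ γ ∈ s, pr γ m = m := by
  classical
  letI := (DirectSum.isInternal_submodule_of_iSupIndep_of_iSup_eq_top ind top).chooseDecomposition
  refine ⟨fun γ => (W γ).subtype ∘ₗ DirectSum.component ℂ G _ γ ∘ₗ
    (DirectSum.decomposeLinearEquiv W).toLinearMap, fun γ m hm => ?_, fun γ γ' h m hm => ?_,
    fun γ m => (DirectSum.decompose W m γ).2, fun m => ⟨_, DirectSum.sum_support_decompose W m⟩⟩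
  · exact DirectSum.decompose_of_mem_same W hm
  · exact DirectSum.decompose_of_mem_ne W hm h

theorem hg_comap (top : ⨆ γ, W γ = ⊤) (ind : iSupIndep W) (top' : ⨆ γ, W' γ = ⊤)
    (ind' : iSupIndep W') {Z' : Submodule ℂ M'} {B : Submodule ℂ M} (hZ : Hg W' Z')
    (hB : Hg W B) (ψ : M' →ₗ[ℂ] M) (κ : G) (hψ : ∀ γ, ∀ m ∈ W' γ, ψ m ∈ W (γ + κ)) :
    Hg W' (Z' ⊓ B.comap ψ) := by
  obtain ⟨p, p1, p2, -, -⟩ := exists_pr top ind
  obtain ⟨q, q1, q2, q3, q4⟩ := exists_pr top' ind'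
  have hq : ∀ γ, ∀ z ∈ Z', q γ z ∈ Z' := fun γ z hz => by
    refine Submodule.iSup_induction _ (motive := fun z => q γ z ∈ Z') (hZ hz) ?_ (by simp) ?_
    · intro γ' m hm
      by_cases h : γ' = γ
      · subst h; rw [q1 _ _ hm.2]; exact hm.1
      · rw [q2 _ _ h _ hm.2]; exact Z'.zero_mem
    · intro a b ha hb; rw [map_add]; exact Z'.add_mem ha hb
  have hp : ∀ γ, ∀ z ∈ B, p γ z ∈ B := fun γ z hz => by
    refine Submodule.iSup_induction _ (motive := fun z => p γ z ∈ B) (hB hz) ?_ (by simp) ?_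
    · intro γ' m hm
      by_cases h : γ' = γ
      · subst h; rw [p1 _ _ hm.2]; exact hm.1
      · rw [p2 _ _ h _ hm.2]; exact B.zero_mem
    · intro a b ha hb; rw [map_add]; exact B.add_mem ha hb
  have hc : ∀ γ m, ψ (q γ m) = p (γ + κ) (ψ m) := fun γ m => by
    refine Submodule.iSup_induction _ (motive := fun m => ψ (q γ m) = p (γ + κ) (ψ m))
      (top'.ge (Submodule.mem_top (x := m))) ?_ (by simp) ?_
    · intro γ' m hm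
      by_cases h : γ' = γ
      · subst h; rw [q1 _ _ hm, p1 _ _ (hψ _ _ hm)]
      · rw [q2 _ _ h _ hm, p2 _ _ (fun e => h (add_right_cancel e)) _ (hψ _ _ hm), map_zero]
    · intro a b ha hb; simp only [map_add, ha, hb]
  intro z hz
  obtain ⟨s, hs⟩ := q4 z
  rw [← hs]
  refine Submodule.sum_mem _ fun γ _ => Submodule.mem_iSup_of_mem γ ⟨⟨hq γ z hz.1, ?_⟩, q3 γ z⟩
  show ψ (q γ z) ∈ B
  rw [hc]
  exact hp _ _ hz.2

end Hom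

/-- Multiplication by a ring element. -/
def sm {P : Type} (M : Type) [CommRing P] [Algebra ℂ P] [AddCommGroup M] [Module ℂ M]
    [Module P M] [IsScalarTower ℂ P M] (a : P) : M →ₗ[ℂ] M where
  toFun m := a • m
  map_add' := smul_add a
  map_smul' c m := (smul_comm c a m).symm

section Abs

variable {V P₀ P₁ M₀ M₁ : Type} [Fintype V] [DecidableEq V] [CommRing P₀] [Algebra ℂ P₀]
  [CommRing P₁] [Algebra ℂ P₁] [AddCommGroup M₀] [Module ℂ M₀] [Module P₀ M₀]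
  [IsScalarTower ℂ P₀ M₀] [AddCommGroup M₁] [Module ℂ M₁] [Module P₁ M₁] [IsScalarTower ℂ P₁ M₁]

/-- The data of a localization. -/
structure Dat (R : V × V → Prop) (x : V → G) (W₀ : G → Submodule ℂ M₀) (W₁ : G → Submodule ℂ M₁)
    (ρ₀ : V × V → M₀ →ₗ[ℂ] M₀) (ρ₁ : V × V → M₁ →ₗ[ℂ] M₁) (i : P₀ →+* P₁) (e : M₀ →ₗ[ℂ] M₁)
    (f : P₀) (T : P₁) (φ : G) (g : V × V → P₀) (L : Submodule P₀ M₀ → Submodule P₁ M₁) :
    Prop where
  rep0 : IsRep R x W₀ ρ₀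
  rep1 : IsRep R x W₁ ρ₁
  esmul : ∀ a z, e (a • z) = i a • e z
  eact : ∀ r z, ρ₁ r (e z) = e (ρ₀ r z)
  actf0 : ∀ r z, ρ₀ r (f • z) = g r • z + f • ρ₀ r z
  actf1 : ∀ r y, ρ₁ r (i f • y) = i (g r) • y + i f • ρ₁ r y
  actT : ∀ r y, ρ₁ r (T • y) = T • ρ₁ r y
  wf0 : ∀ γ, ∀ z ∈ W₀ γ, f • z ∈ W₀ (γ + φ)
  wf1 : ∀ γ, ∀ y ∈ W₁ γ, i f • y ∈ W₁ (γ + φ)
  wT : ∀ γ, ∀ y ∈ W₁ γ, T • y ∈ W₁ (γ + -φ)
  we : ∀ γ, ∀ z ∈ W₀ γ, e z ∈ W₁ γ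
  memI : ∀ Z y, (i f * T - 1) • y ∈ L Z
  mono : ∀ Z Z', Z ≤ Z' → L Z ≤ L Z'
  frac1 : ∀ y, ∃ (m : ℕ) (a : M₀) (y' : M₁), y = T ^ m • e a + (i f * T - 1) • y'
  frac2 : ∀ Z z, e z ∈ L Z ↔ ∃ l : ℕ, f ^ l • z ∈ Z

variable {R : V × V → Prop} {x : V → G} {W₀ : G → Submodule ℂ M₀} {W₁ : G → Submodule ℂ M₁}
  {ρ₀ : V × V → M₀ →ₗ[ℂ] M₀} {ρ₁ : V × V → M₁ →ₗ[ℂ] M₁} {i : P₀ →+* P₁} {e : M₀ →ₗ[ℂ] M₁}
  {f : P₀} {T : P₁} {φ : G} {g : V × V → P₀} {L : Submodule P₀ M₀ → Submodule P₁ M₁}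

omit [Fintype V] [DecidableEq V] [Algebra ℂ P₁] [Module ℂ M₁] [IsScalarTower ℂ P₁ M₁] in
theorem pow_smul_eq (a : P₁) (l : ℕ) (y : M₁) : ∃ y', a ^ l • y = y + (a - 1) • y' := by
  refine ⟨(∑ j ∈ Finset.range l, a ^ j) • y, ?_⟩
  rw [smul_smul, mul_comm, geom_sum_mul, sub_smul, one_smul, add_sub_cancel]

namespace Dat

variable (D : Dat R x W₀ W₁ ρ₀ ρ₁ i e f T φ g L)
include D

omit [Fintype V] [Algebra ℂ P₀] [IsScalarTower ℂ P₀ M₀] [Algebra ℂ P₁] [IsScalarTower ℂ P₁ M₁]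

theorem emem {Z : Submodule P₀ M₀} {z : M₀} (hz : z ∈ Z) : e z ∈ L Z :=
  (D.frac2 Z z).2 ⟨0, by simpa using hz⟩

theorem cancel {Z : Submodule P₀ M₀} {y : M₁} (l : ℕ) (h : T ^ l • y ∈ L Z) : y ∈ L Z := by
  obtain ⟨y', h'⟩ := pow_smul_eq (i f * T) l y
  have h2 := (L Z).smul_mem (i f ^ l) h
  rw [smul_smul, ← mul_pow, h'] at h2
  exact ((L Z).add_mem_iff_left (D.memI Z y')).1 h2

theorem nf {Z : Submodule P₀ M₀} {y : M₁} (hy : y ∈ L Z) :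
    ∃ (m : ℕ), ∃ z ∈ Z, ∃ y', y = T ^ m • e z + (i f * T - 1) • y' := by
  obtain ⟨m, a, y', rfl⟩ := D.frac1 y
  obtain ⟨l, hl⟩ := (D.frac2 Z a).1
    (D.cancel m (((L Z).add_mem_iff_left (D.memI Z y')).1 hy))
  obtain ⟨y'', h⟩ := pow_smul_eq (i f * T) l (T ^ m • e a)
  refine ⟨m + l, _, hl, y' - y'', ?_⟩
  have : T ^ (m + l) • e (f ^ l • a) = (i f * T) ^ l • T ^ m • e a := by
    rw [D.esmul, smul_smul, smul_smul, map_pow]; congr 1; ring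
  rw [this, h, smul_sub]; abel

theorem actTp (r : V × V) (m : ℕ) (y : M₁) : ρ₁ r (T ^ m • y) = T ^ m • ρ₁ r y := by
  induction m with
  | zero => simp
  | succ m ih => rw [pow_succ', mul_smul, D.actT, ih, mul_smul]

theorem wTp (m : ℕ) (γ : G) (y : M₁) (hy : y ∈ W₁ γ) : T ^ m • y ∈ W₁ (γ + -(m • φ)) := by
  induction m with
  | zero => simpa using hy
  | succ m ih =>
    have := D.wT _ _ ih
    rwa [← mul_smul, ← pow_succ', add_assoc, ← neg_add, ← succ_nsmul] at this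

theorem wfp (m : ℕ) (γ : G) (y : M₀) (hy : y ∈ W₀ γ) : f ^ m • y ∈ W₀ (γ + m • φ) := by
  induction m with
  | zero => simpa using hy
  | succ m ih =>
    have := D.wf0 _ _ ih
    rwa [← mul_smul, ← pow_succ', add_assoc, ← succ_nsmul] at this

theorem gmem {B : Submodule P₀ M₀} {r : V × V} (hg : ∀ m, g r • m ∈ B) (y : M₁) :
    i (g r) • y ∈ L B := by
  obtain ⟨m, a, y', rfl⟩ := D.frac1 y
  rw [smul_add, smul_comm, ← D.esmul, smul_comm]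
  exact (L B).add_mem ((L B).smul_mem _ (D.emem (hg a))) (D.memI B _)

theorem actfp {B : Submodule P₀ M₀} {r : V × V} (hg : ∀ m, g r • m ∈ B) (l : ℕ) (z : M₀) :
    ρ₀ r (f ^ l • z) - f ^ l • ρ₀ r z ∈ B := by
  induction l with
  | zero => simp
  | succ l ih =>
    have : ρ₀ r (f ^ (l + 1) • z) - f ^ (l + 1) • ρ₀ r z =
        g r • f ^ l • z + f • (ρ₀ r (f ^ l • z) - f ^ l • ρ₀ r z) := by
      rw [pow_succ', mul_smul, D.actf0, mul_smul, smul_sub]; abel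
    rw [this]
    exact B.add_mem (hg _) (B.smul_mem _ ih)

end Dat

/-- The map `z ↦ T ^ m • e z`. -/
def psi (e : M₀ →ₗ[ℂ] M₁) (T : P₁) (m : ℕ) : M₀ →ₗ[ℂ] M₁ := sm M₁ (T ^ m) ∘ₗ e

omit [Fintype V] [DecidableEq V] [Algebra ℂ P₀] [IsScalarTower ℂ P₀ M₀] in
theorem psi_apply (m : ℕ) (z : M₀) : psi e T m z = T ^ m • e z := rfl

namespace Dat

variable (D : Dat R x W₀ W₁ ρ₀ ρ₁ i e f T φ g L)
include D

omit [Fintype V]

omit [Algebra ℂ P₀] [IsScalarTower ℂ P₀ M₀] in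
theorem wpsi (m : ℕ) (γ : G) (z : M₀) (hz : z ∈ W₀ γ) : psi e T m z ∈ W₁ (γ + -(m • φ)) :=
  D.wTp m γ _ (D.we γ z hz)

omit [Algebra ℂ P₀] [IsScalarTower ℂ P₀ M₀] in
theorem actpsi (m : ℕ) (r : V × V) (z : M₀) : ρ₁ r (psi e T m z) = psi e T m (ρ₀ r z) := by
  rw [psi_apply, psi_apply, D.actTp, D.eact]

theorem subL {Z : Submodule P₀ M₀} (hZ : IsSub R W₀ ρ₀ (Z.restrictScalars ℂ))
    (hg : ∀ r, R r → ∀ m, g r • m ∈ Z) : IsSub R W₁ ρ₁ ((L Z).restrictScalars ℂ) := by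
  constructor
  · refine hg_of_forall fun y hy => ?_
    obtain ⟨m, z, hz, y', rfl⟩ := D.nf hy
    refine ⟨(Z.restrictScalars ℂ).map (psi e T m) ⊔ (⊤ : Submodule ℂ M₁).map (sm M₁ (i f * T - 1)),
      hg_sup (hg_map hZ.homog _ _ (D.wpsi m)) (hg_map (hg_top D.rep1.top) _ 0 fun γ y hy => ?_),
      sup_le ?_ ?_, Submodule.add_mem_sup ⟨z, hz, rfl⟩ ⟨y', trivial, rfl⟩⟩
    · have := D.wf1 _ _ (D.wT _ _ hy)
      rw [neg_add_cancel_right] at this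
      show (i f * T - 1) • y ∈ _
      rw [sub_smul, one_smul, mul_smul, add_zero]
      exact (W₁ γ).sub_mem this hy
    · rintro _ ⟨z, hz, rfl⟩
      exact (L Z).smul_mem _ (D.emem hz)
    · rintro _ ⟨y, -, rfl⟩
      exact D.memI Z y
  · intro r hr y hy
    obtain ⟨m, z, hz, y', rfl⟩ := D.nf hy
    have : ρ₁ r ((i f * T - 1) • y') = i (g r) • T • y' + (i f * T - 1) • ρ₁ r y' := by
      rw [sub_smul, one_smul, mul_smul, map_sub, D.actf1, D.actT, sub_smul, one_smul, mul_smul]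
      abel
    rw [map_add, D.actTp, D.eact, this]
    exact (L Z).add_mem ((L Z).smul_mem _ (D.emem (hZ.stab r hr z hz)))
      ((L Z).add_mem (D.gmem (hg r hr) _) (D.memI Z _))

omit [Algebra ℂ P₁] [IsScalarTower ℂ P₁ M₁] in
theorem subK {Z B Kf : Submodule P₀ M₀} (hZ : IsSub R W₀ ρ₀ (Z.restrictScalars ℂ))
    (hB : IsSub R W₀ ρ₀ (B.restrictScalars ℂ)) (hg : ∀ r, R r → ∀ m, g r • m ∈ B)
    (hK : ∀ z, z ∈ Kf ↔ z ∈ Z ∧ ∃ l : ℕ, f ^ l • z ∈ B) :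
    IsSub R W₀ ρ₀ (Kf.restrictScalars ℂ) := by
  constructor
  · refine hg_of_forall fun z hz => ?_
    obtain ⟨h1, l, h2⟩ := (hK z).1 hz
    exact ⟨Z.restrictScalars ℂ ⊓ (B.restrictScalars ℂ).comap (sm M₀ (f ^ l)),
      hg_comap D.rep0.top D.rep0.indep D.rep0.top D.rep0.indep hZ.homog hB.homog _ _ (D.wfp l),
      fun y hy => (hK y).2 ⟨hy.1, l, hy.2⟩, h1, h2⟩
  · intro r hr z hz
    obtain ⟨h1, l, h2⟩ := (hK z).1 hz
    refine (hK _).2 ⟨hZ.stab r hr z h1, l, ?_⟩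
    have := B.sub_mem (hB.stab r hr _ h2) (D.actfp (hg r hr) l z)
    rwa [sub_sub_cancel] at this

end Dat

omit [Fintype V] [DecidableEq V] [Algebra ℂ P₀] [Module ℂ M₀] [IsScalarTower ℂ P₀ M₀] in
theorem mem_Kf {Z Kf : Submodule P₀ M₀} {y : M₀} :
    y ∈ Kf ⊔ Ideal.span {f} • Z ↔ ∃ k ∈ Kf, ∃ z ∈ Z, y = k + f • z := by
  rw [Submodule.ideal_span_singleton_smul, Submodule.mem_sup]
  constructor
  · rintro ⟨k, hk, y', hy', rfl⟩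
    obtain ⟨z, hz, rfl⟩ := (Submodule.mem_smul_pointwise_iff_exists _ _ _).1 hy'
    exact ⟨k, hk, z, hz, rfl⟩
  · rintro ⟨k, hk, z, hz, rfl⟩
    exact ⟨k, hk, _, Submodule.smul_mem_pointwise_smul _ _ _ hz, rfl⟩

namespace Dat

variable (D : Dat R x W₀ W₁ ρ₀ ρ₁ i e f T φ g L)
include D

omit [Fintype V]

omit [Algebra ℂ P₁] [IsScalarTower ℂ P₁ M₁] in
theorem subKf {Z Kf : Submodule P₀ M₀} (hZ : IsSub R W₀ ρ₀ (Z.restrictScalars ℂ))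
    (hK : IsSub R W₀ ρ₀ (Kf.restrictScalars ℂ)) (hg : ∀ r, R r → ∀ m, g r • m ∈ Kf) :
    IsSub R W₀ ρ₀ ((Kf ⊔ Ideal.span {f} • Z).restrictScalars ℂ) := by
  constructor
  · refine hg_of_forall fun y hy => ?_
    obtain ⟨k, hk, z, hz, rfl⟩ := mem_Kf.1 hy
    refine ⟨Kf.restrictScalars ℂ ⊔ (Z.restrictScalars ℂ).map (sm M₀ f),
      hg_sup hK.homog (hg_map hZ.homog _ _ D.wf0), sup_le ?_ ?_,
      Submodule.add_mem_sup hk ⟨z, hz, rfl⟩⟩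
    · exact fun k hk => mem_Kf.2 ⟨k, hk, 0, Z.zero_mem, by simp⟩
    · rintro _ ⟨z, hz, rfl⟩
      exact mem_Kf.2 ⟨0, Kf.zero_mem, z, hz, (zero_add _).symm⟩
  · intro r hr y hy
    obtain ⟨k, hk, z, hz, rfl⟩ := mem_Kf.1 hy
    refine mem_Kf.2 ⟨ρ₀ r k + g r • z, Kf.add_mem (hK.stab r hr k hk) (hg r hr z), ρ₀ r z,
      hZ.stab r hr z hz, ?_⟩
    rw [map_add, D.actf0, add_assoc]

theorem subY {Z : Submodule P₀ M₀} {Bt : Submodule ℂ M₁}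
    (hZ : IsSub R W₀ ρ₀ (Z.restrictScalars ℂ)) (hB : IsSub R W₁ ρ₁ Bt) (m : ℕ) :
    IsSub R W₁ ρ₁ ((Z.restrictScalars ℂ).map (psi e T m) ⊔ Bt) := by
  refine ⟨hg_sup (hg_map hZ.homog _ _ (D.wpsi m)) hB.homog, fun r hr y hy => ?_⟩
  obtain ⟨_, ⟨z, hz, rfl⟩, b, hb, rfl⟩ := Submodule.mem_sup.1 hy
  rw [map_add, D.actpsi]
  exact Submodule.add_mem_sup ⟨_, hZ.stab r hr z hz, rfl⟩ (hB.stab r hr b hb)

omit [Algebra ℂ P₀] [IsScalarTower ℂ P₀ M₀] in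
theorem psi_succ (m : ℕ) (z : M₀) :
    psi e T (m + 1) (f • z) = psi e T m z + (i f * T - 1) • psi e T m z := by
  rw [psi_apply, psi_apply, D.esmul, sub_smul, one_smul, add_sub_cancel, smul_smul, smul_smul]
  congr 1; ring

end Dat

end Abs

end Pool.Agent.MP_8be872_ag.H24
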