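import Pool.Agent.MP_8be872_ag.H63.SpecE

/-! Supports of matrices and the shift matrix. -/

namespace Pool.Agent.MP_8be872_ag.H24

open Finset H38 H56 H63
open scoped Matrix

section gen

variable {N : Type} [Fintype N] {R R' S : N → N → Prop} {M M' ξ : Matrix N N ℂ}

/-- The entries of `M` outside `R` vanish. -/
def Su (R : N → N → Prop) (M : Matrix N N ℂ) : Prop := ∀ p q, ¬ R p q → M p q = 0

theorem Su.mul (h : Su R M) (h' : Su R' M') (k : ∀ p s q, R p s → R' s q → S p q) :
    Su S (M * M') := fun p q hn => by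
  rw [Matrix.mul_apply]
  refine sum_eq_zero fun s _ => ?_
  by_cases e : R p s
  · exact mul_eq_zero_of_right _ (h' s q fun e' => hn (k p s q e e'))
  · exact mul_eq_zero_of_left (h p s e) _

omit [Fintype N] in
theorem Su.mono (h : Su R M) (k : ∀ p q, R p q → S p q) : Su S M :=
  fun p q hn => h p q fun e => hn (k p q e)

omit [Fintype N] in
theorem Su.and (h : Su R M) (h' : Su R' M) : Su (fun p q => R p q ∧ R' p q) M := fun p q hn => by
  by_cases e : R p q
  · exact h' p q fun e' => hn ⟨e, e'⟩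
  · exact h p q e

omit [Fintype N] in
theorem Su.add (h : Su R M) (h' : Su R M') : Su R (M + M') := fun p q hn => by
  rw [Matrix.add_apply, h p q hn, h' p q hn, add_zero]

omit [Fintype N] in
theorem Su.sub (h : Su R M) (h' : Su R M') : Su R (M - M') := fun p q hn => by
  rw [Matrix.sub_apply, h p q hn, h' p q hn, sub_zero]

omit [Fintype N] in
theorem Su.sum {ι : Type} (s : Finset ι) {F : ι → Matrix N N ℂ} (h : ∀ i, Su R (F i)) :
    Su R (∑ i ∈ s, F i) := fun p q hn => by
  rw [Matrix.sum_apply]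
  exact sum_eq_zero fun i _ => h i p q hn

omit [Fintype N] in
theorem Su.tr (h : Su R M) : Su (fun p q => R q p) Mᵀ := fun p q hn => h q p hn

/-- The pairing of matrices. -/
noncomputable def pr (ξ M : Matrix N N ℂ) : ℂ := ∑ p, ∑ q, ξ p q * M p q

theorem pr_congr (h : Su R ξ) (k : ∀ p q, R p q → M p q = M' p q) : pr ξ M = pr ξ M' := by
  refine sum_congr rfl fun p _ => sum_congr rfl fun q _ => ?_
  by_cases e : R p q
  · rw [k p q e]
  · rw [h p q e, zero_mul, zero_mul]

theorem pr_zero (h : Su R ξ) (h' : Su R' M) (k : ∀ p q, R p q → ¬ R' p q) : pr ξ M = 0 := by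
  rw [pr_congr (M' := 0) h fun p q e => h' p q (k p q e)]
  simp [pr]

theorem pr_add : pr ξ (M + M') = pr ξ M + pr ξ M' := by
  simp [pr, mul_add, sum_add_distrib]

open Classical in
/-- The part of a matrix supported on `R`. -/
noncomputable def mk (R : N → N → Prop) (M : Matrix N N ℂ) : Matrix N N ℂ :=
  fun p q => if R p q then M p q else 0

omit [Fintype N] in
theorem mk_su (R : N → N → Prop) (h : Su R' M) : Su (fun p q => R' p q ∧ R p q) (mk R M) :=
  fun p q hn => by
    unfold mk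
    split_ifs with e
    · exact h p q fun e' => hn ⟨e', e⟩
    · rfl

omit [Fintype N] in
theorem mk_add (R : N → N → Prop) (M : Matrix N N ℂ) :
    mk R M + mk (fun p q => ¬ R p q) M = M := by
  ext p q
  by_cases e : R p q <;> simp [mk, e]

end gen

theorem ring1 {A : Type} [Ring A] {a e x δ : A} (h1 : e * e = e) (h3 : x * a = a * x * e)
    (h4 : δ * e = e * δ * e) : x * ((δ * a - a * δ) * e) * e = (x * δ * a - a * (x * δ)) * e := by
  have : x * a * (δ * e) = a * x * (δ * e) := by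
    rw [h3, mul_assoc (a * x), ← mul_assoc e, ← h4]
  rw [mul_assoc, mul_assoc, h1, sub_mul, sub_mul, mul_sub]
  simp only [mul_assoc] at this ⊢
  rw [this]

theorem ring2 {A : Type} [Ring A] {a e x δ : A} (h2 : a * e = a) (h3 : x * a = a * x * e)
    (h4 : x * e = e * x * e) : (δ * a - a * δ) * e * x * e = (δ * x * a - a * (δ * x)) * e := by
  have : δ * (a * x * e) = δ * (x * (a * e)) := by rw [h2, h3]
  rw [mul_assoc, mul_assoc, ← mul_assoc e, ← h4, sub_mul, sub_mul]
  simp only [mul_assoc] at this ⊢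
  rw [this]

variable {Q : Quiv} {w v D : Fin Q.n → ℕ} {d : Bas Q v → ℕ} {lab : Bas Q D → Bas Q v × ℕ}

/-- The support of the shift. -/
def Sh (d : Bas Q v → ℕ) (lab : Bas Q D → Bas Q v × ℕ) (p q : Nb Q w v D) : Prop :=
  vx p = vx q ∧ blk p < 2 ∧ blk q = 0 ∧ lv d lab q = lv d lab p - 1 ∧
    (blk p = 0 → ∀ τ, q = .inl τ → (lab τ).2 ≠ 0)

theorem su_al0 (h : IsLab d lab) : Su (Sh (w := w) d lab) (al0 lab) := by
  rintro p (τ | q) hn
  · refine if_neg fun e => hn ?_
    rcases p with τ' | a | b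
    · have e0 : ((lab τ').1, (lab τ').2 + 1) = lab τ := Option.some.inj e
      have e1 : (lab τ').1 = (lab τ).1 := (Prod.ext_iff.1 e0).1
      have e2 : (lab τ').2 + 1 = (lab τ).2 := (Prod.ext_iff.1 e0).2
      refine ⟨?_, by simp [blk], rfl, ?_, fun _ τ'' e3 => ?_⟩
      · change τ'.1 = τ.1
        rw [← h.vert, ← h.vert, e1]
      · simp only [lv, e1, ← e2]
        push_cast
        ring
      · obtain rfl := Sum.inl.inj e3
        omega
    · have e1 : a = (lab τ).1 := congrArg Prod.fst (Option.some.inj e)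
      have e2 : 0 = (lab τ).2 := congrArg Prod.snd (Option.some.inj e)
      refine ⟨?_, by simp [blk], rfl, ?_, fun h0 => by simp [blk] at h0⟩
      · change a.1 = τ.1
        rw [← h.vert, e1]
      · simp only [lv, e1, ← e2]
        push_cast
        ring
    · cases e
  · rfl

/-- The projection to `T`. -/
noncomputable def eT : Matrix (Nb Q w v D) (Nb Q w v D) ℂ :=
  Matrix.diagonal fun q => if blk q = 0 then 1 else 0

theorem mul_eT (M : Matrix (Nb Q w v D) (Nb Q w v D) ℂ) (p q : Nb Q w v D) :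
    (M * (eT : Matrix (Nb Q w v D) (Nb Q w v D) ℂ)) p q = if blk q = 0 then M p q else 0 := by
  simp [eT, Matrix.mul_diagonal]

theorem eT_mul (M : Matrix (Nb Q w v D) (Nb Q w v D) ℂ) (p q : Nb Q w v D) :
    ((eT : Matrix (Nb Q w v D) (Nb Q w v D) ℂ) * M) p q = if blk p = 0 then M p q else 0 := by
  simp [eT, Matrix.diagonal_mul]

theorem eT_eT : (eT * eT : Matrix (Nb Q w v D) (Nb Q w v D) ℂ) = eT := by
  rw [eT, Matrix.diagonal_mul_diagonal]
  congr 1
  funext q
  split_ifs <;> simp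

theorem eT_of {M : Matrix (Nb Q w v D) (Nb Q w v D) ℂ} (h : Su (fun _ q => blk q = 0) M) :
    M * eT = M := by
  ext p q
  rw [mul_eT]
  split_ifs with e
  · rfl
  · exact (h p q e).symm

theorem eT_par {M : Matrix (Nb Q w v D) (Nb Q w v D) ℂ} (h : Su radP M) :
    M * eT = eT * M * eT := by
  ext p q
  rw [mul_eT, mul_eT, eT_mul]
  split_ifs with e e'
  · rfl
  · exact h p q fun k => e' (k e)
  · rfl

theorem Su.eT {R : Nb Q w v D → Nb Q w v D → Prop} {M : Matrix (Nb Q w v D) (Nb Q w v D) ℂ}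
    (h : Su R M) : Su (fun p q => R p q ∧ blk q = 0) (M * eT) := fun p q hn => by
  rw [mul_eT]
  split_ifs with e
  · exact h p q fun k => hn ⟨k, e⟩
  · rfl

theorem hp_ex (h : IsLab d lab) (τ : Bas Q D) :
    ∃ s : Nb Q w v D, ∀ p, hp lab p = some (lab τ) ↔ p = s := by
  rcases e : (lab τ).2 with _ | k
  · refine ⟨.inr (.inl (lab τ).1), ?_⟩
    rintro (τ' | a | b)
    · simp [hp, Prod.ext_iff, e]
    · simp [hp, Prod.ext_iff, e]
    · simp [hp]
  · obtain ⟨τ₀, h0⟩ := h.surj (lab τ).1 k (by have := h.lt τ; omega)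
    refine ⟨.inl τ₀, ?_⟩
    rintro (τ' | a | b)
    · simp only [hp, Option.some.injEq, Prod.ext_iff, e, add_left_inj, Sum.inl.injEq]
      rw [← h.inj.eq_iff, h0, Prod.ext_iff]
    · simp [hp, Prod.ext_iff, e]
    · simp [hp]

theorem tr_mul (h : IsLab d lab) : (al0 (w := w) lab)ᵀ * al0 lab = eT := by
  ext q q'
  rw [Matrix.mul_apply]
  rcases q with τ | q
  · rcases q' with τ' | q'
    · obtain ⟨s, hs⟩ := hp_ex (w := w) h τ
      simp only [Matrix.transpose_apply, al0, hs, ite_mul, one_mul, zero_mul, sum_ite_eq',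
        mem_univ, if_true, (hs s).2 rfl, Option.some.injEq, h.inj.eq_iff]
      simp [eT, Matrix.diagonal_apply, blk]
    · simp [al0, eT]
  · rcases q with a | b <;> simp [al0, eT, Matrix.diagonal_apply, blk]

theorem lv_bd (h : IsLab d lab) (p : Nb Q w v D) : 0 ≤ lv d lab p ∧ lv d lab p ≤ ∑ a, d a := by
  have k : ∀ a, (d a : ℤ) ≤ ∑ a, d a := fun a => by
    exact_mod_cast single_le_sum (f := d) (fun _ _ => Nat.zero_le _) (mem_univ a)
  rcases p with τ | a | b
  · have := h.lt τ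
    have := k (lab τ).1
    simp only [lv]
    omega
  · exact ⟨Int.natCast_nonneg _, k a⟩
  · exact ⟨le_rfl, Int.natCast_nonneg _⟩

theorem nilp (h : IsLab d lab) : ∃ n, al0 (w := w) lab ^ n = 0 := by
  have k : ∀ n : ℕ, Su (fun p q => lv d lab q = lv d lab p - n) (al0 (w := w) lab ^ n) := by
    intro n
    induction n with
    | zero => exact fun p q hn => Matrix.one_apply_ne fun e => hn (by simp [e])
    | succ n ih =>
      rw [pow_succ]
      exact ih.mul (su_al0 h) fun p s q e e' => by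
        have := e'.2.2.2.1
        push_cast
        omega
  refine ⟨∑ a, d a + 1, ?_⟩
  ext p q
  refine k _ p q fun e => ?_
  have := (lv_bd h p).2
  have := (lv_bd h q).1
  push_cast at *
  omega

/-- Relations that are invariant under the shift. -/
def Inv (d : Bas Q v → ℕ) (lab : Bas Q D → Bas Q v × ℕ) (R : Nb Q w v D → Nb Q w v D → Prop) :
    Prop := ∀ p p' q, Sh d lab p p' → (R p q ↔ R p' q) ∧ (R q p ↔ R q p')

theorem inv_arrow (τ : Arr Q ⊕ Bool) : Inv (w := w) d lab (arrow τ) := by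
  rintro p p' q ⟨h1, h2, h3, -⟩
  have h4 : blk p ≠ 2 := by omega
  rcases τ with ⟨_ | e, s⟩ | s <;> simp [arrow, h1, h2, h3, h4]

theorem Inv.not {R : Nb Q w v D → Nb Q w v D → Prop} (h : Inv d lab R) :
    Inv d lab fun p q => ¬ R p q :=
  fun p p' q e => ⟨not_congr (h p p' q e).1, not_congr (h p p' q e).2⟩

theorem cm_su (h : IsLab d lab) {R : Nb Q w v D → Nb Q w v D → Prop} (hR : Inv d lab R)
    (L : ℤ → Prop) {M : Matrix (Nb Q w v D) (Nb Q w v D) ℂ}
    (hM : Su (fun p q => R p q ∧ L (lv d lab q - lv d lab p)) M) :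
    Su (fun p q => R p q ∧ L (lv d lab q - lv d lab p + 1)) (cm0 lab M) := by
  refine Su.sub (hM.mul (su_al0 h) fun p s q e e' => ⟨(hR s q p e').2.1 e.1, ?_⟩)
    ((su_al0 h).mul hM fun p s q e e' => ⟨(hR p s q e).1.2 e'.1, ?_⟩)
  · rw [e'.2.2.2.1, show lv d lab s - 1 - lv d lab p + 1 = lv d lab s - lv d lab p by ring]
    exact e.2
  · have := e'.2
    rwa [e.2.2.2.1, show lv d lab q - (lv d lab p - 1) = lv d lab q - lv d lab p + 1 by ring]
      at this

theorem cm_add (M M' : Matrix (Nb Q w v D) (Nb Q w v D) ℂ) :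
    cm0 lab (M + M') = cm0 lab M + cm0 lab M' := by
  simp only [cm0, add_mul, mul_add]
  abel

/-- Solving `cm0 δ = t` on the paired entries. -/
theorem dec (h : IsLab d lab) {R : Nb Q w v D → Nb Q w v D → Prop} (hR : Inv d lab R)
    {t : Matrix (Nb Q w v D) (Nb Q w v D) ℂ}
    (ht : Su (fun p q => (R p q ∧ blk q = 0) ∧ 0 < lv d lab q - lv d lab p + 1) t) :
    ∃ δ t', Su radP δ ∧ Su (fun p q => (R p q ∧ blk q = 0) ∧ 0 < lv d lab q - lv d lab p + 1 ∧
      ¬ thP lab p q) t' ∧ t = cm0 lab δ * eT + t' := by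
  obtain ⟨n, hn⟩ := nilp (w := w) h
  have a1 := su_al0 (w := w) h
  have k : ∀ i : ℕ, Su (fun p q => R p q ∧ 0 < lv d lab q - lv d lab p + 1)
      (al0 lab ^ i * t * (al0 lab)ᵀ ^ i) := by
    intro i
    induction i with
    | zero =>
      rw [pow_zero, pow_zero, one_mul, mul_one]
      exact ht.mono fun p q e => ⟨e.1.1, e.2⟩
    | succ i ih =>
      rw [pow_succ', pow_succ, ← mul_assoc, mul_assoc (al0 lab), mul_assoc (al0 lab)]
      refine Su.mul (R := fun p q => R p q ∧ 0 < lv d lab q - lv d lab p + 2)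
        (a1.mul ih fun p s q e e' => ⟨(hR p s q e).1.2 e'.1, ?_⟩) a1.tr
        fun p s q e e' => ⟨(hR q s p e').2.2 e.1, ?_⟩
      · have := e.2.2.2.1
        have := e'.2
        omega
      · have := e'.2.2.2.1
        have := e.2
        omega
  let m := ∑ i ∈ range n, al0 lab ^ i * t * (al0 lab)ᵀ ^ i
  have m1 : Su (fun p q => R p q ∧ 0 < lv d lab q - lv d lab p + 1) m := Su.sum _ k
  have m2 : m - al0 lab * m * (al0 lab)ᵀ = t := by
    have := sum_range_sub' (fun i => al0 lab ^ i * t * (al0 lab)ᵀ ^ i) n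
    rw [hn, zero_mul, zero_mul, sub_zero, pow_zero, pow_zero, one_mul, mul_one,
      sum_sub_distrib] at this
    rw [← this, mul_sum, sum_mul]
    congr 1
    refine sum_congr rfl fun i _ => ?_
    rw [pow_succ' (al0 lab), pow_succ (al0 lab)ᵀ]
    simp only [mul_assoc]
  have d1 : Su (fun p q => R p q ∧ 0 < lv d lab q - lv d lab p) (m * (al0 lab)ᵀ) :=
    m1.mul a1.tr fun p s q e e' => ⟨(hR q s p e').2.2 e.1, by
      have := e'.2.2.2.1
      have := e.2
      omega⟩
  have d2 : cm0 lab (m * (al0 lab)ᵀ) * eT = t := by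
    rw [cm0, mul_assoc m, tr_mul h, sub_mul, mul_assoc m, eT_eT, ← sub_mul, ← mul_assoc, m2]
    exact eT_of (ht.mono fun p q e => e.1.2)
  have d3 := mk_su (fun p q => ¬ radP p q) d1
  refine ⟨mk radP (m * (al0 lab)ᵀ), cm0 lab (mk (fun p q => ¬ radP p q) (m * (al0 lab)ᵀ)) * eT,
    (mk_su radP d1).mono fun p q e => e.2, ?_, by rw [← add_mul, ← cm_add, mk_add, d2]⟩
  have d4 : Su (fun p q => ¬ thP lab p q)
      (cm0 lab (mk (fun p q => ¬ radP p q) (m * (al0 lab)ᵀ))) := by
    refine Su.sub (d3.mul a1 fun p s q e e' => ?_) (a1.mul d3 fun p s q e e' => ?_)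
    · rintro ⟨τ, e1, e2⟩
      have e3 := Classical.not_imp.1 e.2
      exact e2.elim e3.2 (e'.2.2.2.2 e3.1 τ e1)
    · exact absurd (fun _ => e.2.2.1) e'.2
  exact ((cm_su h hR (0 < ·) (d3.mono fun p q e => e.1)).and d4).eT.mono
    fun p q e => ⟨⟨e.1.1.1, e.2⟩, e.1.1.2, e.1.2⟩

end Pool.Agent.MP_8be872_ag.H24
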