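import Pool.Agent.MP_8be872_ag.H24.NegA

/-! No automorphisms of positive level at stable points. -/

namespace Pool.Agent.MP_8be872_ag.H24

open Finset H38 H56 H63
open scoped Matrix

variable {Q : Quiv} {w v D : Fin Q.n → ℕ} {d : Bas Q v → ℕ} {lab : Bas Q D → Bas Q v × ℕ}

/-- The derivative of the moment map. -/
noncomputable def Bm (x t : Arr Q → Matrix (Nb Q w v D) (Nb Q w v D) ℂ) :
    Matrix (Nb Q w v D) (Nb Q w v D) ℂ :=
  ∑ o, (x (o, true) * t (o, false) + t (o, true) * x (o, false) -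
    x (o, false) * t (o, true) - t (o, false) * x (o, true))

theorem Bm_add (x t t' : Arr Q → Matrix (Nb Q w v D) (Nb Q w v D) ℂ) :
    Bm x (fun ε => t ε + t' ε) = Bm x t + Bm x t' := by
  simp only [Bm, ← sum_add_distrib, mul_add, add_mul]
  refine sum_congr rfl fun o _ => ?_
  abel

theorem Bm_su {R R' S : Nb Q w v D → Nb Q w v D → Prop}
    {x t : Arr Q → Matrix (Nb Q w v D) (Nb Q w v D) ℂ} (hx : ∀ ε, Su R (x ε))
    (ht : ∀ ε, Su R' (t ε)) (k : ∀ p s q, R p s → R' s q → S p q)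
    (k' : ∀ p s q, R' p s → R s q → S p q) : Su S (Bm x t) :=
  Su.sum _ fun _ => ((((hx _).mul (ht _) k).add ((ht _).mul (hx _) k')).sub
    ((hx _).mul (ht _) k)).sub ((ht _).mul (hx _) k')

theorem Bm_cm (h : IsLab d lab) {x δ : Arr Q → Matrix (Nb Q w v D) (Nb Q w v D) ℂ}
    (hx : ∀ ε, Su radP (x ε)) (hδ : ∀ ε, Su radP (δ ε)) (hc : ∀ ε, cm0 lab (x ε) * eT = 0) :
    Bm x (fun ε => cm0 lab (δ ε) * eT) * eT = cm0 lab (Bm x δ) * eT := by
  have h2 : al0 (w := w) lab * eT = al0 lab := eT_of ((su_al0 h).mono fun p q e => e.2.2.1)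
  have h3 : ∀ ε, x ε * al0 lab = al0 lab * x ε * eT := fun ε => by
    have := hc ε
    rwa [cm0, sub_mul, mul_assoc, h2, sub_eq_zero] at this
  have k1 := fun ε ε' => ring1 eT_eT (h3 ε) (eT_par (hδ ε'))
  have k2 := fun ε ε' => ring2 (δ := δ ε') h2 (h3 ε) (eT_par (hx ε))
  simp only [Bm, cm0]
  rw [sum_mul, sum_mul, mul_sum, ← sum_sub_distrib, sum_mul]
  refine sum_congr rfl fun o _ => ?_
  rw [sub_mul, sub_mul, add_mul, k1, k1, k2, k2]
  noncomm_ring

theorem negPt : ToepStmt → NegPtStmt := by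
  intro hT Q w v D d lab h P y ya hy hc hdet ξ hξ hu ht
  have ξ1 : Su (fun p q => (arrow (.inr false) p q ∧ blk q = 0) ∧
      0 < lv d lab q - lv d lab p + 1) ξ := fun p q hn =>
    hξ p q fun e => hn ⟨e.1.1, e.2⟩
  have x1 : ∀ ε, Su (fun p q => (arrow (.inl ε) p q ∧ radP p q) ∧
      lv d lab q - lv d lab p ≤ 0) (y (kx ε)) := fun ε p q hn =>
    hy ε p q fun e => hn ⟨e.1.1, by simpa [lvk] using e.2⟩
  have hU : ∀ u : Matrix (Nb Q w v D) (Nb Q w v D) ℂ,
      Su (fun p q => arrow (.inr false) p q ∧ radP p q) u → pr ξ (cm0 lab u) = 0 := by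
    intro u su
    rw [← mk_add (fun p q => 0 < lv d lab q - lv d lab p) u, cm_add, pr_add]
    have e1 : pr ξ (cm0 lab (mk (fun p q => 0 < lv d lab q - lv d lab p) u)) = 0 :=
      hu _ fun p q hn => mk_su _ su p q fun e =>
        hn ⟨⟨e.1, fun k => by cases k⟩, by simpa [lvk] using e.2⟩
    rw [e1, zero_add]
    exact pr_zero ξ1 (cm_su h (inv_arrow (.inr false)) (fun n => ¬ 0 < n)
      ((mk_su _ su).mono fun p q e => ⟨e.1.1, e.2⟩)) fun p q e e' => e'.2 e.2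
  have hU' : ∀ u : Matrix (Nb Q w v D) (Nb Q w v D) ℂ, Su radP u → pr ξ (cm0 lab u) = 0 := by
    intro u su
    rw [← mk_add (arrow (.inr false)) u, cm_add, pr_add,
      hU _ ((mk_su _ su).mono fun p q e => ⟨e.2, e.1⟩), zero_add]
    exact pr_zero ξ1 (cm_su h (inv_arrow (.inr false)).not (fun _ => True)
      ((mk_su _ su).mono fun p q e => ⟨e.2, trivial⟩)) fun p q e e' => e'.1 e.1.1
  have hE : ∀ M : Matrix (Nb Q w v D) (Nb Q w v D) ℂ, pr ξ (M * eT) = pr ξ M := fun M =>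
    pr_congr ξ1 fun p q e => by rw [mul_eT, if_pos e.1.2]
  have hc' : ∀ ε, cm0 lab (y (kx ε)) * eT = 0 := fun ε => by
    have k := cm_su h (inv_arrow (.inl ε)) (· ≤ 0) ((x1 ε).mono fun p q e => ⟨e.1.1, e.2⟩)
    ext p q
    rw [mul_eT, Matrix.zero_apply]
    split_ifs with e
    · by_contra hn
      have k' := of_not_not (mt (k p q) hn)
      exact hn (hc ε p q ⟨⟨k'.1, e⟩, fun k => by cases k⟩ k'.2)
    · rfl
  refine (hT Q w v D d lab h).2.2.2 P y ya (fun ε p q hn => x1 ε p q fun e => hn e.1) hdet ξ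
    (fun p q hn => ξ1 p q fun e => hn e.1) (fun u su => hU u su) fun t st => ?_
  have st' : ∀ ε, Su (fun p q => arrow (.inl ε) p q ∧ blk q = 0) (t ε) := st
  choose δ t' d1 d2 d3 using fun ε => dec h (inv_arrow (.inl ε))
    (mk_su (fun p q => 0 < lv d lab q - lv d lab p + 1) (st' ε))
  have e : t = fun ε => (cm0 lab (δ ε) * eT + t' ε) +
      mk (fun p q => ¬ 0 < lv d lab q - lv d lab p + 1) (t ε) := funext fun ε => by
    rw [← d3, mk_add]
  change pr ξ (Bm (fun ε => y (kx ε)) t) = 0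
  rw [e, Bm_add, Bm_add, pr_add, pr_add]
  have x2 : ∀ ε, Su radP (y (kx ε)) := fun ε => (x1 ε).mono fun p q e => e.1.2
  have e1 : pr ξ (Bm (fun ε => y (kx ε)) fun ε => cm0 lab (δ ε) * eT) = 0 := by
    rw [← hE, Bm_cm h x2 d1 hc', hE]
    exact hU' _ (Bm_su x2 d1 (fun p s q a b c => a (b c)) fun p s q a b c => a (b c))
  have e2 : pr ξ (Bm (fun ε => y (kx ε)) t') = 0 :=
    ht t' fun ε p q hn => d2 ε p q fun e => hn ⟨⟨e.1, fun k => by cases k⟩, e.2⟩
  rw [e1, e2, zero_add, zero_add]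
  refine pr_zero ξ1 (Bm_su (S := fun p q => ¬ 0 < lv d lab q - lv d lab p + 1)
    (fun ε => (x1 ε).mono fun p q e => e.2) (fun ε => (mk_su _ (st' ε)).mono fun p q e => e.2)
    (fun p s q a b => ?_) fun p s q a b => ?_) fun p q e e' => e' e.2
  · omega
  · omega

end Pool.Agent.MP_8be872_ag.H24
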