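import Pool.Agent.MP_8be872_ag.H63.SpecC
import Pool.Agent.MP_8be872_ag.H59.Orbit
import Pool.Agent.MP_8be872_ag.H64.Cut
import Pool.Agent.MP_8be872_ag.H56.Rep

/-! Paths cutting out the stable locus. -/

namespace Pool.Agent.MP_8be872_ag.H24

open Finset H38 H56 H63 H64
open MvPolynomial hiding funext
open scoped Matrix

variable {Q : Quiv} {w v : Fin Q.n → ℕ}

/-- Every column is the column of a nonempty path. -/
theorem col_path {c : Bas Q v → Pol0 (Arr Q) (Bas Q v) (Bas Q w)}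
    (hc : IsCol (fun a : Bas Q v => a.1) c) :
    ∃ (P : Pth Q w) (j : Fin Q.n), (∃ ε l, P.2 = (ε, j) :: l) ∧ (∀ a, a.1 ≠ j → c a = 0) ∧
      colP (fun j (p : Bas Q v ⊕ Bas Q w) => ∃ a, p = .inl a ∧ a.1 = j) mat0
        (Pi.single (.inr P.1) 1) P.2 = Sum.elim c 0 := by
  induction hc with
  | base ε b j =>
    refine ⟨(b, [(ε, j)]), j, ⟨ε, [], rfl⟩, fun a ha => if_neg ha, funext fun p => ?_⟩
    rcases p with a | a
    · by_cases h : a.1 = j <;> simp [colP, h, -Sigma.exists]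
    · simp [colP]
  | step ε j c _ ih =>
    obtain ⟨P, i, -, -, h⟩ := ih
    refine ⟨(P.1, (ε, j) :: P.2), j, ⟨ε, P.2, rfl⟩, fun a ha => if_neg ha, funext fun p => ?_⟩
    unfold colP at h ⊢
    rw [List.foldr_cons, h]
    rcases p with a | a
    · by_cases h : a.1 = j <;> simp [h, Matrix.mulVec, dotProduct, Fintype.sum_sum_type]
    · simp

/-- A maximal minor that does not vanish at the base point cuts out the stable locus. -/
theorem cuts_minor {x₀ : Option (Co Q w v) → ℂ}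
    (o3 : ∀ x, OnZ Q w v 0 x → Stable Q w v x →
      ∃ g : Matrix (Bas Q v ⊕ Bas Q w) (Bas Q v ⊕ Bas Q w) ℂ, IsUnit g ∧
        (∀ a b : Bas Q v, a.1 ≠ b.1 → g (.inl a) (.inl b) = 0) ∧
        (∀ p (b : Bas Q w), g p (.inr b) = (if p = .inr b then 1 else 0) ∧
          g (.inr b) p = if p = .inr b then 1 else 0) ∧
        ∀ ε : Arr Q, (Matrix.of fun p q => x (some (ε, p, q))) * g =
          g * Matrix.of fun p q => x₀ (some (ε, p, q)))
    (c : Bas Q v → Bas Q v → Pol0 (Arr Q) (Bas Q v) (Bas Q w))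
    (hc : ∀ b, IsCol (fun a : Bas Q v => a.1) (c b))
    (hg : eval x₀ (emb (Matrix.of fun a b => c b a).det) ≠ 0) :
    ∃ φ, Cuts Q w v (emb (Matrix.of fun a b => c b a).det) φ := by
  obtain ⟨-, -, r3, r4, -⟩ :=
    rep (Arr Q) (Bas Q v) (Bas Q w) (fun _ => True) (basWt Q w v) (arrWt Q)
  let H : AddSubgroup G :=
    { carrier := {g | ∀ n, ofLex g (3 * n + 4) = 0}
      zero_mem' := fun _ => rfl
      add_mem' := fun {a b} ha hb n => by simp [ha n, hb n]
      neg_mem' := fun {a} ha n => by simp [ha n] }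
  have hg' : ∀ r, r % 3 ≠ 1 ∨ r < 4 → gen r ∈ H := fun r hr n => by
    have : r ≠ 3 * n + 4 := by omega
    simp [gen, Finsupp.single_apply, this]
  choose ω ω1 ω2 using fun b => wt_col (basWt Q w v) (arrWt Q) H (fun b => hg' _ (by omega))
    (by
      have t := hg' 1 (by omega)
      rintro ⟨_ | e, _ | _⟩
      exacts [H.neg_mem t, H.neg_mem t, H.sub_mem (H.neg_mem (hg' _ (by omega))) t,
        H.sub_mem (hg' _ (by omega)) t]) (hc b)
  refine ⟨_, fun h => ?_, (r4 _ _ _).2 (wt_det _ _ c ω ω2), fun a => ?_, fun r h1 h2 => ?_,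
    fun x hx => ⟨fun h => (cut2 Q w v x hx).2 ⟨_, ⟨c, hc, rfl⟩, h⟩, fun h => ?_⟩⟩
  · classical simpa using vars_rename _ _ h
  · have e1 : ofLex (∑ b, ω b) (3 * Nat.pair a.1 a.2 + 4) = 0 := H.sum_mem (fun b _ => ω1 b) _
    have e2 : ofLex (∑ b, basWt Q w v (.inl b)) (3 * Nat.pair a.1 a.2 + 4) = 1 := by
      change (∑ b : Bas Q v, Finsupp.single (3 * Nat.pair b.1 b.2 + 4) (1 : ℤ)) _ = 1
      rw [Finsupp.finset_sum_apply, sum_eq_single a (fun b _ hb => ?_) (by simp),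
        Finsupp.single_eq_same]
      refine Finsupp.single_eq_of_ne fun e => hb ?_
      obtain ⟨e1, e2⟩ := Nat.pair_eq_pair.1 (by omega : Nat.pair a.1 a.2 = Nat.pair b.1 b.2)
      obtain ⟨i, a⟩ := a
      obtain ⟨j, b⟩ := b
      obtain rfl : i = j := Fin.ext e1
      exact congrArg _ (Fin.ext e2.symm)
    rw [ofLex_sub, Finsupp.sub_apply, e1, e2, zero_sub]
  · rw [r3, der_det (act0 r) (Matrix.of fun a b => c b a) h2 fun p q => act_col (hc q) h1 p,
      map_zero]
  · obtain ⟨g, g0, g1, g2, g3⟩ := o3 x hx h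
    have e : (Matrix.of fun a b => ev x (c b) a)
        = g.toBlocks₁₁ * Matrix.of fun a b => ev x₀ (c b) a := by
      ext a b
      exact ev_conj g1 g2 g3 (hc b) a
    rw [ev_det] at hg ⊢
    rw [e, Matrix.det_mul]
    refine mul_ne_zero (fun h0 => ?_) hg
    have z : g.toBlocks₂₁ = 0 := by
      ext b a
      simp [Matrix.toBlocks₂₁, (g2 _ _).2]
    rw [Matrix.isUnit_iff_isUnit_det, ← g.fromBlocks_toBlocks, z, Matrix.det_fromBlocks_zero₂₁, h0,
      zero_mul] at g0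
    exact not_isUnit_zero g0

theorem path : PathStmt := by
  intro Q hl w v hi
  obtain ⟨x₀, o1, o2, o3⟩ := H59.orbit Q hl w v hi
  obtain ⟨g, ⟨c, hc, rfl⟩, hg⟩ := (cut2 Q w v x₀ o1).1 o2
  choose P j h1 h2 h3 using fun b => col_path (hc b)
  have h0 : (Matrix.of fun a b => c b a).det ≠ 0 := fun h => hg (by rw [h]; simp)
  rw [Matrix.det_apply] at h0
  obtain ⟨σ, -, hσ⟩ := exists_ne_zero_of_sum_ne_zero h0
  have hj : ∀ b, j (σ.symm b) = b.1 := fun b => by
    by_contra hn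
    refine hσ ?_
    rw [prod_eq_zero (mem_univ (σ.symm b)), smul_zero]
    rw [Equiv.apply_symm_apply]
    exact h2 _ b (Ne.symm hn)
  have e : Fold (fun b => P (σ.symm b)) = (Matrix.of fun a b => c (σ.symm b) a).det := by
    unfold Fold
    congr 1
    refine Matrix.ext fun a b => ?_
    exact congrFun (h3 (σ.symm b)) (.inl a)
  have hg1 : eval x₀ (emb (Matrix.of fun a b => c (σ.symm b) a).det) ≠ 0 := by
    rw [ev_det] at hg ⊢
    have := Matrix.det_permute' σ.symm (Matrix.of fun a b => ev x₀ (c b) a)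
    change (Matrix.of fun a b => ev x₀ (c (σ.symm b)) a).det = _ at this
    rw [this]
    refine mul_ne_zero ?_ hg
    rcases Int.units_eq_one_or (Equiv.Perm.sign σ.symm) with h | h <;> simp [h]
  obtain ⟨φ, hφ⟩ := cuts_minor o3 (fun b => c (σ.symm b)) (fun b => hc _) hg1
  refine ⟨fun b => P (σ.symm b), φ, fun b => hj b ▸ h1 (σ.symm b), fun h => hg1 ?_, e ▸ hφ⟩
  rw [← e, h]
  simp

end Pool.Agent.MP_8be872_ag.H24
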